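import Pool.Agent.L0h7.KF.Stm
import Pool.Agent.L0h91.KN.PAT

/-! # KF, module PAT2: finitely many words and polynomials decide the idempotence of the value -/

set_option autoImplicit false

open CategoryTheory

noncomputable section

namespace Pool.Agent.L0h95.KF

open Pool.Agent.Y75.NK Pool.Agent.L0h7.KN Pool.Agent.L0h7.KF

open scoped Classical in
theorem gmap_coeff {A B : Type} [Ring A] [Ring B] {E H : Type} [Group E] [Group H]
    (θ : A →+* B) (f : E →* H) (a : MonoidAlgebra A E) (h : H) :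
    (gmap θ f a).coeff h =
      θ (∑ y ∈ a.coeff.support.filter (fun y => f y = h), a.coeff y) := by
  have h0 : (gmap θ f a).coeff h =
      (MonoidAlgebra.mapRingHom H θ (MonoidAlgebra.mapDomainRingHom A f a)).coeff h := rfl
  rw [h0, MonoidAlgebra.coeff_mapRingHom]
  congr 1
  show (Finsupp.mapDomain f a.coeff) h = _
  rw [Finsupp.mapDomain, Finsupp.sum_apply, Finsupp.sum, Finset.sum_filter]
  apply Finset.sum_congr rfl
  intro y _
  rw [Finsupp.single_apply]

open scoped Classical in
theorem gmap_zero_iff {A B : Type} [Ring A] [Ring B] {E H : Type} [Group E] [Group H]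
    (θ : A →+* B) (f : E →* H) (a : MonoidAlgebra A E) :
    gmap θ f a = 0 ↔ ∀ x ∈ a.coeff.support,
      θ (∑ y ∈ a.coeff.support.filter (fun y => f y = f x), a.coeff y) = 0 := by
  constructor
  · intro h x _
    rw [← gmap_coeff, h]
    rfl
  · intro h
    apply MonoidAlgebra.coeff_injective
    ext z
    rw [gmap_coeff]
    by_cases hz : ∃ x ∈ a.coeff.support, f x = z
    · obtain ⟨x, hx, rfl⟩ := hz
      exact h x hx
    · have h1 : a.coeff.support.filter (fun y => f y = z) = ∅ := by
        rw [Finset.filter_eq_empty_iff]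
        intro x hx hxz
        exact hz ⟨x, hx, hxz⟩
      rw [h1, Finset.sum_empty, map_zero]
      rfl

theorem ev2_idem_iff {r m n d : ℕ} (M : FMat r m n d) {k : Type} [Ring k] (θ : Zp r →+* k)
    {G : GrpCat.{0}} (f : fm n ⟶ G) : ev2 M θ f * ev2 M θ f = ev2 M θ f ↔
      ∀ i j, gmap θ ((EF m).map f).hom ((M * M - M) i j) = 0 := by
  unfold ev2
  have h1 : M.map (gmap θ ((EF m).map f).hom) * M.map (gmap θ ((EF m).map f).hom) =
      (M * M).map (gmap θ ((EF m).map f).hom) := Matrix.map_mul.symm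
  rw [h1]
  constructor
  · intro h i j
    have h2 := congrFun (congrFun h i) j
    rw [Matrix.map_apply, Matrix.map_apply] at h2
    rw [Matrix.sub_apply, map_sub, h2, sub_self]
  · intro h
    ext1 i j
    have h2 := h i j
    rw [Matrix.sub_apply, map_sub, sub_eq_zero] at h2
    rw [Matrix.map_apply, Matrix.map_apply, h2]

/-- two words with the same image -/
theorem same_iff {m n : ℕ} {G H : GrpCat.{0}} (f : fm n ⟶ G) (g : fm n ⟶ H)
    (x y : (EF m).obj (fm n))
    (h : f.hom (prj m (fm n) y * (prj m (fm n) x)⁻¹) = 1 ↔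
      g.hom (prj m (fm n) y * (prj m (fm n) x)⁻¹) = 1) :
    ((EF m).map f).hom y = ((EF m).map f).hom x ↔ ((EF m).map g).hom y = ((EF m).map g).hom x := by
  have h5 : prj m (fm n) (y * x⁻¹) = prj m (fm n) y * (prj m (fm n) x)⁻¹ := by
    rw [map_mul, map_inv]
  have h6 := Pool.Agent.L0h91.KN.PAT.EF_one_iff m f g (y * x⁻¹) (by rw [h5]; exact h)
  rw [map_mul, map_inv, map_mul, map_inv, mul_inv_eq_one, mul_inv_eq_one] at h6
  exact h6

open scoped Classical in
/-- (PAT2) -/
theorem t_PAT2 : S_PAT2 := by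
  intro r m n d M
  let U : Finset ((EF m).obj (fm n)) :=
    Finset.univ.biUnion fun i : Fin d => Finset.univ.biUnion fun j : Fin d =>
      ((M * M - M) i j).coeff.support
  refine ⟨(U ×ˢ U).image fun p => prj m (fm n) p.1 * (prj m (fm n) p.2)⁻¹,
    Finset.univ.biUnion fun i : Fin d => Finset.univ.biUnion fun j : Fin d =>
      (((M * M - M) i j).coeff.support.powerset).image fun T =>
        ∑ y ∈ T, ((M * M - M) i j).coeff y, ?_⟩
  intro k k' _ _ θ θ' G H f g hE hE' hf
  rw [ev2_idem_iff] at hf ⊢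
  intro i j
  rw [gmap_zero_iff]
  intro x hx
  have h1 := (gmap_zero_iff _ _ _).1 (hf i j) x hx
  have hxU : x ∈ U := Finset.mem_biUnion.2 ⟨i, Finset.mem_univ _,
    Finset.mem_biUnion.2 ⟨j, Finset.mem_univ _, hx⟩⟩
  have h2 : ((M * M - M) i j).coeff.support.filter
        (fun y => ((EF m).map g).hom y = ((EF m).map g).hom x) =
      ((M * M - M) i j).coeff.support.filter
        (fun y => ((EF m).map f).hom y = ((EF m).map f).hom x) := by
    apply Finset.filter_congr
    intro y hy
    have hyU : y ∈ U := Finset.mem_biUnion.2 ⟨i, Finset.mem_univ _,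
      Finset.mem_biUnion.2 ⟨j, Finset.mem_univ _, hy⟩⟩
    have h4 := hE _ (Finset.mem_image_of_mem
      (fun p : (EF m).obj (fm n) × (EF m).obj (fm n) => prj m (fm n) p.1 * (prj m (fm n) p.2)⁻¹)
      (Finset.mk_mem_product hyU hxU))
    exact (same_iff f g x y h4).symm
  rw [h2]
  refine (hE' _ ?_).1 h1
  refine Finset.mem_biUnion.2 ⟨i, Finset.mem_univ _,
    Finset.mem_biUnion.2 ⟨j, Finset.mem_univ _, Finset.mem_image.2 ⟨_, ?_, rfl⟩⟩⟩
  rw [Finset.mem_powerset]
  exact Finset.filter_subset _ _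

end Pool.Agent.L0h95.KF
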